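import Pool.Agent.H76.SIJ.Assemble
import Pool.Agent.H76.SIJ.Upper
import Pool.Agent.H76.SIJ.Disj

/-!
Two-party communication complexity of `SIJ` (approximate size of the support of a product of two
0-1 matrices): it is `n / ε` up to subpolynomial factors in `1/ε` and polylogarithmic factors in
`n` (and `n · min(1/ε, n)` if `ε < 1/n` is allowed).
-/

namespace Pool.Agent.Results.MP_fcebbb_lc.NOverEps

open Pool.Agent.H76.SIJ

/-- The randomized communication complexity `R_δ(SIJ_{n,ε})` in the most demanding model: private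
coins, and the output is determined by the exchanged bits. -/
noncomputable def Rpriv (n : ℕ) (ε δ : ℝ) : ℕ := sInf {c | PrivSolves n ε δ c}

/-- The randomized communication complexity `R_δ(SIJ_{n,ε})` in the least demanding model: public
coins, and only one of the two players (Alice or Bob) has to know the output, which may depend
on that player's own input. -/
noncomputable def Rweak (n : ℕ) (ε δ : ℝ) : ℕ :=
  sInf {c | PubSolvesAlice n ε δ c ∨ PubSolvesBob n ε δ c}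

theorem exp_sqrt_lower (γ : ℝ) (hγ : 0 < γ) (M : ℝ) (hM : 1 ≤ M) :
    Real.exp (-(9 / γ)) * M ^ (-γ) ≤ Real.exp (-(6 * Real.sqrt (Real.log M))) := by
  have hM0 : 0 < M := by linarith
  have hL : 0 ≤ Real.log M := Real.log_nonneg hM
  rw [Real.rpow_def_of_pos hM0, ← Real.exp_add]
  apply Real.exp_le_exp.2
  set l := Real.sqrt (Real.log M) with hl
  have hl2 : l ^ 2 = Real.log M := Real.sq_sqrt hL
  have h1 : 9 / γ + Real.log M * γ - 6 * l = (3 - γ * l) ^ 2 / γ := by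
    rw [← hl2]
    field_simp
    ring
  have h2 : 0 ≤ (3 - γ * l) ^ 2 / γ := by positivity
  linarith

theorem result :
    (∀ δ : ℝ, 0 < δ → δ < 1 / 2 → ∃ c C : ℝ, 0 < c ∧ 0 < C ∧
      ∀ n : ℕ, 1 ≤ n → ∀ ε : ℝ, 0 < ε → ε ≤ 1 →
        c * (n * min (1 / ε) n) * Real.exp (-(6 * Real.sqrt (Real.log (min (1 / ε) n))))
            ≤ Rweak n ε δ ∧
        Rweak n ε δ ≤ Rpriv n ε δ ∧
        (Rpriv n ε δ : ℝ) ≤ C * (n * min (1 / ε) n) * (1 + Real.log n) ^ 3) ∧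
    (∀ δ : ℝ, 0 < δ → δ < 1 / 2 → ∀ γ : ℝ, 0 < γ → ∃ c : ℝ, 0 < c ∧
      ∀ n : ℕ, 1 ≤ n → ∀ ε : ℝ, 1 / (n : ℝ) ≤ ε → ε ≤ 1 →
        c * (n / ε ^ (1 - γ)) ≤ Rweak n ε δ) := by
  have main : ∀ δ : ℝ, 0 < δ → δ < 1 / 2 → ∃ c C : ℝ, 0 < c ∧ 0 < C ∧
      ∀ n : ℕ, 1 ≤ n → ∀ ε : ℝ, 0 < ε → ε ≤ 1 →
        c * (n * min (1 / ε) n) * Real.exp (-(6 * Real.sqrt (Real.log (min (1 / ε) n))))
            ≤ Rweak n ε δ ∧
        Rweak n ε δ ≤ Rpriv n ε δ ∧
        (Rpriv n ε δ : ℝ) ≤ C * (n * min (1 / ε) n) * (1 + Real.log n) ^ 3 := by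
    intro δ hδ0 hδ
    obtain ⟨c, hc, hlow⟩ := lower_of_core δ (coreLower δ (by linarith)) (disjLower δ hδ)
    obtain ⟨C, hC, hup⟩ := upper_bound δ hδ0
    refine ⟨c, C, hc, hC, ?_⟩
    intro n hn ε hε hε1
    obtain ⟨K, hK, hKC⟩ := hup n hn ε hε hε1
    have hmem : Rpriv n ε δ ∈ {c | PrivSolves n ε δ c} := Nat.sInf_mem ⟨K, hK⟩
    have hmemw : PubSolvesAlice n ε δ (Rpriv n ε δ) ∨ PubSolvesBob n ε δ (Rpriv n ε δ) :=
      Or.inr (PubSolves.bob (PrivSolves.pub hmem))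
    have hw : PubSolvesAlice n ε δ (Rweak n ε δ) ∨ PubSolvesBob n ε δ (Rweak n ε δ) :=
      Nat.sInf_mem (s := {c | PubSolvesAlice n ε δ c ∨ PubSolvesBob n ε δ c})
        ⟨Rpriv n ε δ, hmemw⟩
    refine ⟨?_, Nat.sInf_le hmemw, ?_⟩
    · have hB : PubSolvesBob n ε δ (Rweak n ε δ) := by
        rcases hw with h | h
        · exact PubSolvesAlice.bob h
        · exact h
      have := hlow n hn ε hε hε1 _ hB
      rw [← mul_assoc c]
      exact this
    · have h1 : Rpriv n ε δ ≤ K := Nat.sInf_le hK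
      have h2 : (Rpriv n ε δ : ℝ) ≤ K := by exact_mod_cast h1
      rw [← mul_assoc C]
      exact h2.trans hKC
  refine ⟨main, ?_⟩
  intro δ hδ0 hδ γ hγ
  obtain ⟨c, C, hc, _, h⟩ := main δ hδ0 hδ
  refine ⟨c * Real.exp (-(9 / γ)), by positivity, ?_⟩
  intro n hn ε hε hε1
  have hn0 : (0 : ℝ) < n := by exact_mod_cast hn
  have hε0 : 0 < ε := lt_of_lt_of_le (by positivity) hε
  have hM : min (1 / ε) (n : ℝ) = 1 / ε := by
    apply min_eq_left
    rw [div_le_iff₀ hε0]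
    rw [div_le_iff₀ hn0] at hε
    linarith
  have h1 := (h n hn ε hε0 hε1).1
  rw [hM] at h1
  have h2 : 1 ≤ 1 / ε := by rw [le_div_iff₀ hε0]; linarith
  have h3 := exp_sqrt_lower γ hγ (1 / ε) h2
  have h4 : (n : ℝ) / ε ^ (1 - γ) = n * (1 / ε) * (1 / ε) ^ (-γ) := by
    rw [one_div, Real.inv_rpow hε0.le, Real.rpow_neg hε0.le, inv_inv, Real.rpow_sub hε0,
      Real.rpow_one]
    field_simp
  calc c * Real.exp (-(9 / γ)) * (n / ε ^ (1 - γ))
      = c * (n * (1 / ε)) * (Real.exp (-(9 / γ)) * (1 / ε) ^ (-γ)) := by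
        rw [h4]; ring
    _ ≤ c * (n * (1 / ε)) * Real.exp (-(6 * Real.sqrt (Real.log (1 / ε)))) := by
        apply mul_le_mul_of_nonneg_left h3
        positivity
    _ ≤ Rweak n ε δ := h1

end Pool.Agent.Results.MP_fcebbb_lc.NOverEps
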